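import Pool.Agent.L7h4.SF.Stm

set_option autoImplicit false

noncomputable section

namespace Pool.Agent.L7h7.SF

open Matrix Pool.Agent.L7h4.SF Pool.Agent.L7h57.RV Pool.Agent.L7h4.F5

/-- the Krylov matrix -/
def Kry (A : Mat 3) (v : Fin 3 → ℂ) : Mat 3 := Matrix.of fun i k : Fin 3 => (A ^ (k : ℕ) *ᵥ v) i

theorem kry_conj (A P M : Mat 3) (h : A * P = P * M) (x : Fin 3 → ℂ) :
    Kry A (P *ᵥ x) = P * Kry M x := by
  have hk : ∀ k : ℕ, A ^ k * P = P * M ^ k := by
    intro k
    induction k with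
    | zero => simp
    | succ k ih => rw [pow_succ, mul_assoc, h, ← mul_assoc, ih, mul_assoc, ← pow_succ]
  ext i k
  rw [Matrix.mul_apply]
  show (A ^ (k : ℕ) *ᵥ (P *ᵥ x)) i = _
  rw [Matrix.mulVec_mulVec, hk, ← Matrix.mulVec_mulVec]
  rfl

/-- the explicit determinant -/
theorem kry_det (b al be d s t : ℂ) :
    (Kry !![b, 0, 0; al, 0, -d; be, 1, s] ![1, t, 0]).det =
      (al - b * t) ^ 2 + s * (al - b * t) * (be + t) + d * (be + t) ^ 2 := by
  rw [Matrix.det_fin_three]
  simp [Kry, pow_two, Matrix.mulVec, dotProduct, Fin.sum_univ_three, Matrix.mul_apply]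
  ring

theorem alg (b al be d s : ℂ)
    (h : ∀ t : ℂ, (al - b * t) ^ 2 + s * (al - b * t) * (be + t) + d * (be + t) ^ 2 = 0) :
    d = b * (s - b) ∧ al = - (b * be) := by
  have h0 := h 0
  have h1 := h 1
  have h2 := h (-1)
  have e1 : d = b * (s - b) := by linear_combination (1/2) * h1 + (1/2) * h2 - h0
  have e2 : (s - 2 * b) * (al + b * be) = 0 := by
    subst e1
    linear_combination (1/2) * h1 - (1/2) * h2
  have e3 : (al + b * be) * (al + (s - b) * be) = 0 := by
    subst e1
    linear_combination h0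
  refine ⟨e1, ?_⟩
  by_contra hne
  have hne' : al + b * be ≠ 0 := fun h' => hne (by linear_combination h')
  have e4 : s - 2 * b = 0 := (mul_eq_zero.mp e2).resolve_right hne'
  have e5 : al + (s - b) * be = 0 := (mul_eq_zero.mp e3).resolve_left hne'
  apply hne'
  linear_combination e5 - be * e4

theorem exists_indep (A : Mat 3) (hA : ∀ l : ℂ, A ≠ l • 1) :
    ∃ v : Fin 3 → ℂ, LinearIndependent ℂ ![v, A *ᵥ v] := by
  by_contra hcon
  push Not at hcon
  -- every vector is an eigenvector
  have hE : ∀ v : Fin 3 → ℂ, v ≠ 0 → ∃ c : ℂ, c • v = A *ᵥ v := by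
    intro v hv
    have := hcon v
    rw [LinearIndependent.pair_iff' hv] at this
    push Not at this
    exact this
  have he : ∀ i : Fin 3, (Pi.single i 1 : Fin 3 → ℂ) ≠ 0 := by
    intro i h
    have := congrFun h i
    simp at this
  choose c hc using fun i => hE (Pi.single i 1) (he i)
  have hAe : ∀ i j, A j i = c i * (if j = i then 1 else 0) := by
    intro i j
    have := congrFun (hc i) j
    rw [Matrix.mulVec_single_one] at this
    simp only [Pi.smul_apply, smul_eq_mul, Matrix.col_apply, Pi.single_apply] at this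
    exact this.symm
  have hs : ∀ i j, i ≠ j → c i = c j := by
    intro i j hij
    have hne : (Pi.single i 1 + Pi.single j 1 : Fin 3 → ℂ) ≠ 0 := by
      intro h
      have := congrFun h i
      simp [Pi.single_apply, hij] at this
    obtain ⟨e, hee⟩ := hE _ hne
    rw [Matrix.mulVec_add, ← hc i, ← hc j] at hee
    have h1 := congrFun hee i
    have h2 := congrFun hee j
    simp [Pi.single_apply, hij, Ne.symm hij] at h1 h2
    rw [← h1, ← h2]
  apply hA (c 0)
  ext i j
  rw [hAe j i, Matrix.smul_apply, Matrix.one_apply, smul_eq_mul]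
  by_cases h : i = j
  · subst h
    by_cases h0 : i = 0
    · subst h0; rfl
    · rw [hs i 0 h0]
  · rw [if_neg h]; simp

theorem exists_w (u v : Fin 3 → ℂ) (h : LinearIndependent ℂ ![u, v]) :
    ∃ w : Fin 3 → ℂ, LinearIndependent ℂ ![w, u, v] := by
  have : ∃ w : Fin 3 → ℂ, w ∉ Submodule.span ℂ (Set.range ![u, v]) := by
    by_contra hcon
    push Not at hcon
    have htop : Submodule.span ℂ (Set.range ![u, v]) = ⊤ := by
      rw [eq_top_iff]; intro x _; exact hcon x
    have h1 := finrank_span_eq_card h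
    rw [htop] at h1
    simp at h1
  obtain ⟨w, hw⟩ := this
  exact ⟨w, linearIndependent_finCons.mpr ⟨h, hw⟩⟩

theorem s_RANK : S_RANK := by
  intro A hcyc hA
  have hK : ∀ v, (Kry A v).det = 0 := by
    intro v
    by_contra h
    exact hcyc ⟨v, h⟩
  obtain ⟨v, hv⟩ := exists_indep A hA
  obtain ⟨w, hw⟩ := exists_w _ _ hv
  set P : Mat 3 := Matrix.of fun i j => (![w, v, A *ᵥ v] : Fin 3 → Fin 3 → ℂ) j i with hP
  have hPt : LinearIndependent ℂ P.col := hw
  have hPu : IsUnit P := Matrix.linearIndependent_cols_iff_isUnit.mp hPt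
  have hPd : IsUnit P.det := (Matrix.isUnit_iff_isUnit_det P).mp hPu
  have h1 : P * P⁻¹ = 1 := Matrix.mul_nonsing_inv P hPd
  have h2 : P⁻¹ * P = 1 := Matrix.nonsing_inv_mul P hPd
  set M : Mat 3 := P⁻¹ * A * P with hM
  have hAP : A * P = P * M := by
    rw [hM, ← mul_assoc, ← mul_assoc, h1, one_mul]
  -- second column of `M`
  have hcol1 : ∀ i, M i 1 = (1 : Mat 3) i 2 := by
    intro i
    rw [← h2, hM, mul_assoc, Matrix.mul_apply, Matrix.mul_apply]
    apply Finset.sum_congr rfl
    intro j _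
    congr 1
  have hcol2 : M 0 2 = 0 := by
    have hd : (Kry A (P *ᵥ ![0, 1, 0])).det = 0 := hK _
    rw [kry_conj A P M hAP, Matrix.det_mul] at hd
    have hd2 := (mul_eq_zero.mp hd).resolve_left hPd.ne_zero
    rw [Matrix.det_fin_three] at hd2
    have m01 := hcol1 0
    have m11 := hcol1 1
    have m21 := hcol1 2
    simp [Kry, pow_two, Matrix.mulVec, dotProduct, Fin.sum_univ_three, Matrix.mul_apply, m01, m11,
      m21] at hd2
    exact hd2
  have hMe : M = !![M 0 0, 0, 0; M 1 0, 0, -(-M 1 2); M 2 0, 1, M 2 2] := by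
    have m01 := hcol1 0
    have m11 := hcol1 1
    have m21 := hcol1 2
    ext i j
    fin_cases i <;> fin_cases j <;> simp [m01, m11, m21, hcol2]
  have key := alg (M 0 0) (M 1 0) (M 2 0) (-M 1 2) (M 2 2) (by
    intro t
    rw [← kry_det, ← hMe]
    have hd : (Kry A (P *ᵥ ![1, t, 0])).det = 0 := hK _
    rw [kry_conj A P M hAP, Matrix.det_mul] at hd
    exact (mul_eq_zero.mp hd).resolve_left hPd.ne_zero)
  obtain ⟨k1, k2⟩ := key
  set b := M 0 0 with hb
  refine ⟨b, P *ᵥ ![0, -b, 1], ![M 2 0, 1, M 2 2 - b] ᵥ* P⁻¹, ?_, ?_, ?_⟩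
  · intro h
    have : P⁻¹ *ᵥ (P *ᵥ ![0, -b, 1]) = 0 := by rw [h, Matrix.mulVec_zero]
    rw [Matrix.mulVec_mulVec, h2, Matrix.one_mulVec] at this
    have := congrFun this 2
    simp at this
  · intro h
    have : (![M 2 0, 1, M 2 2 - b] ᵥ* P⁻¹) ᵥ* P = 0 := by rw [h, Matrix.zero_vecMul]
    rw [Matrix.vecMul_vecMul, h2, Matrix.vecMul_one] at this
    have := congrFun this 1
    simp at this
  · have hMb : M = b • 1 + vecMulVec ![0, -b, 1] ![M 2 0, 1, M 2 2 - b] := by
      have m01 := hcol1 0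
      have m11 := hcol1 1
      have m21 := hcol1 2
      ext i j
      fin_cases i <;> fin_cases j <;>
        simp [m01, m11, m21, hcol2, vecMulVec_apply, ← hb]
      · rw [k2]
      · linear_combination -k1
    have : A = P * M * P⁻¹ := by
      rw [← hAP, mul_assoc, h1, mul_one]
    rw [this]
    conv_lhs => rw [hMb]
    rw [mul_add, add_mul, Matrix.mul_smul, Matrix.smul_mul, mul_one, h1]
    congr 1
    rw [Matrix.mul_vecMulVec, Matrix.vecMulVec_mul]

end Pool.Agent.L7h7.SF
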